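import Pool.Agent.H73.EQD.Stmts

/-!
Module SLICE of the project EQD (MP_d3855f_gt).
-/

open Real Set Topology

namespace EQD

namespace SLICE

theorem nsq2 (h : E2) : ‖h‖ ^ 2 = h 0 ^ 2 + h 1 ^ 2 := by
  rw [EuclideanSpace.norm_sq_eq]
  simp [Fin.sum_univ_two]

theorem nsq4 (p : E4) : ‖p‖ ^ 2 = p 0 ^ 2 + p 1 ^ 2 + p 2 ^ 2 + p 3 ^ 2 := by
  rw [EuclideanSpace.norm_sq_eq]
  simp [Fin.sum_univ_four]

theorem nsq_e0 (h : E2) : ‖e0 (h 0) (h 1)‖ ^ 2 = ‖h‖ ^ 2 := by
  rw [nsq4, nsq2]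
  simp [e0]

theorem norm_e0 (h : E2) : ‖e0 (h 0) (h 1)‖ = ‖h‖ := by
  have h1 := nsq_e0 h
  exact (sq_eq_sq₀ (norm_nonneg _) (norm_nonneg _)).1 h1

/-- the linear map `e0` -/
noncomputable def L0 : E2 →L[ℝ] E4 :=
  LinearMap.toContinuousLinearMap
    { toFun := fun h => e0 (h 0) (h 1)
      map_add' := by
        intro x y
        ext i
        fin_cases i <;> simp [e0]
      map_smul' := by
        intro c x
        ext i
        fin_cases i <;> simp [e0] }

theorem L0_apply (h : E2) : L0 h = e0 (h 0) (h 1) := rfl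

/-- the linear map `Rq` -/
noncomputable def LR : E4 →L[ℝ] E4 :=
  LinearMap.toContinuousLinearMap
    { toFun := fun p => Rq p
      map_add' := by
        intro x y
        ext i
        fin_cases i <;> simp [Rq]
        ring
      map_smul' := by
        intro c x
        ext i
        fin_cases i <;> simp [Rq] }

theorem LR_apply (p : E4) : LR p = Rq p := rfl

theorem norm_Rq (p : E4) : ‖Rq p‖ = ‖p‖ := by
  have h1 : ‖Rq p‖ ^ 2 = ‖p‖ ^ 2 := by
    rw [nsq4, nsq4]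
    simp [Rq]
    ring
  exact (sq_eq_sq₀ (norm_nonneg _) (norm_nonneg _)).1 h1

theorem inner_Rq (p q : E4) : inner ℝ (Rq p) (Rq q) = (inner ℝ p q : ℝ) := by
  simp only [PiLp.inner_apply, Fin.sum_univ_four]
  simp [Rq]
  ring

theorem Rq_inj : Function.Injective Rq := by
  intro p q h
  have h1 : LR (p - q) = 0 := by
    rw [map_sub, LR_apply, LR_apply, h, sub_self]
  have h2 : ‖p - q‖ = 0 := by
    rw [← norm_Rq, ← LR_apply, h1, norm_zero]
  exact sub_eq_zero.1 (norm_eq_zero.1 h2)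

theorem fderiv_flat (h1 : S_DISK1) (h : E2) (hh : ‖h‖ = 1) : fderiv ℝ eD h = L0 := by
  have hopen : ∀ᶠ k in 𝓝 h, eD k = L0 k := by
    have hc : ∀ᶠ k in 𝓝 h, 4 / 5 < ‖k‖ ^ 2 := by
      have : Continuous fun k : E2 => ‖k‖ ^ 2 := by fun_prop
      refine this.continuousAt.eventually (lt_mem_nhds ?_)
      change 4 / 5 < ‖h‖ ^ 2
      rw [hh]
      norm_num
    filter_upwards [hc] with k hk
    rw [h1.2.2.2.2 k hk.le, L0_apply]
  have h2 : HasFDerivAt eD L0 h := L0.hasFDerivAt.congr_of_eventuallyEq hopen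
  exact h2.fderiv

end SLICE

open SLICE in
theorem slice (h1 : S_DISK1) (h2 : S_DISK2) : S_SLICE := by
  obtain ⟨hsm, himm, hx, hy, hflat⟩ := h1
  obtain ⟨hinj, hsmall⟩ := h2
  have h1' : S_DISK1 := ⟨hsm, himm, hx, hy, hflat⟩
  -- image of the sphere
  have hsph : eD '' Metric.sphere 0 1 = K0 := by
    ext p
    constructor
    · rintro ⟨h, hh, rfl⟩
      have hn : ‖h‖ = 1 := by simpa using hh
      have e : eD h = e0 (h 0) (h 1) := hflat h (by rw [hn]; norm_num)
      refine ⟨?_, ?_, ?_⟩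
      · rw [S3, mem_sphere_zero_iff_norm, e, norm_e0, hn]
      · rw [e]
        simp [e0]
      · rw [e]
        simp [e0]
    · rintro ⟨hp, hp0, hp2⟩
      have hn : ‖p‖ = 1 := by simpa [S3] using hp
      have hn2 : ‖(!₂[p 1, p 3] : E2)‖ ^ 2 = 1 := by
        rw [nsq2]
        have := nsq4 p
        rw [hn, hp0, hp2] at this
        simp
        linarith
      have hn3 : ‖(!₂[p 1, p 3] : E2)‖ = 1 := by
        have h0 : (0:ℝ) ≤ ‖(!₂[p 1, p 3] : E2)‖ := norm_nonneg _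
        nlinarith
      refine ⟨!₂[p 1, p 3], by rw [mem_sphere_zero_iff_norm, hn3], ?_⟩
      rw [hflat _ (by rw [hn2]; norm_num)]
      ext i
      fin_cases i <;> simp [e0, hp0, hp2]
  have hball : ∀ h ∈ Metric.ball (0 : E2) 1, ‖eD h‖ < 1 := by
    intro h hh
    have hn : ‖h‖ < 1 := by simpa using hh
    rcases lt_or_ge (‖h‖ ^ 2) (4 / 5) with hc | hc
    · have := hsmall h hc
      have h0 : (0:ℝ) ≤ ‖eD h‖ := norm_nonneg _
      nlinarith
    · rw [hflat h hc, norm_e0]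
      exact hn
  have hbd : ∀ h ∈ Metric.sphere (0 : E2) 1, ‖eD h‖ = 1 ∧ 0 < inner ℝ (eD h) (fderiv ℝ eD h h) := by
    intro h hh
    have hn : ‖h‖ = 1 := by simpa using hh
    have e : eD h = e0 (h 0) (h 1) := hflat h (by rw [hn]; norm_num)
    have h3 : ‖eD h‖ = 1 := by rw [e, norm_e0, hn]
    refine ⟨h3, ?_⟩
    rw [fderiv_flat h1' h hn, L0_apply, ← e, real_inner_self_eq_norm_sq, h3]
    norm_num
  have hRK : Rq '' K0 = K0 := by
    ext p
    constructor
    · rintro ⟨q, ⟨hq, hq0, hq2⟩, rfl⟩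
      refine ⟨?_, ?_, ?_⟩
      · rw [S3, mem_sphere_zero_iff_norm, norm_Rq]
        simpa [S3] using hq
      · simpa [Rq] using hq0
      · simpa [Rq] using hq2
    · rintro ⟨hp, hp0, hp2⟩
      have e : Rq !₂[p 0, p 3, p 2, -p 1] = p := by
        ext i
        fin_cases i <;> simp [Rq]
      refine ⟨!₂[p 0, p 3, p 2, -p 1], ⟨?_, ?_, ?_⟩, e⟩
      · rw [S3, mem_sphere_zero_iff_norm, ← norm_Rq, e]
        simpa [S3] using hp
      · simpa using hp0
      · simpa using hp2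
  have hrhoD : rho '' Ds = Ds := by
    unfold Ds
    ext p
    constructor
    · rintro ⟨_, ⟨h, hh, rfl⟩, rfl⟩
      refine ⟨!₂[-h 0, h 1], ?_, hx h⟩
      rw [mem_closedBall_zero_iff] at hh ⊢
      have : ‖(!₂[-h 0, h 1] : E2)‖ ^ 2 = ‖h‖ ^ 2 := by
        rw [nsq2, nsq2]
        simp
      rwa [(sq_eq_sq₀ (norm_nonneg _) (norm_nonneg _)).1 this]
    · rintro ⟨h, hh, rfl⟩
      refine ⟨eD !₂[-h 0, h 1], ⟨!₂[-h 0, h 1], ?_, rfl⟩, ?_⟩
      · rw [mem_closedBall_zero_iff] at hh ⊢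
        have : ‖(!₂[-h 0, h 1] : E2)‖ ^ 2 = ‖h‖ ^ 2 := by
          rw [nsq2, nsq2]
          simp
        rwa [(sq_eq_sq₀ (norm_nonneg _) (norm_nonneg _)).1 this]
      · rw [hx h]
        ext i
        fin_cases i <;> simp [rho]
  have hrhpD : rhp '' Ds = Ds := by
    unfold Ds
    ext p
    constructor
    · rintro ⟨_, ⟨h, hh, rfl⟩, rfl⟩
      refine ⟨!₂[h 0, -h 1], ?_, hy h⟩
      rw [mem_closedBall_zero_iff] at hh ⊢
      have : ‖(!₂[h 0, -h 1] : E2)‖ ^ 2 = ‖h‖ ^ 2 := by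
        rw [nsq2, nsq2]
        simp
      rwa [(sq_eq_sq₀ (norm_nonneg _) (norm_nonneg _)).1 this]
    · rintro ⟨h, hh, rfl⟩
      refine ⟨eD !₂[h 0, -h 1], ⟨!₂[h 0, -h 1], ?_, rfl⟩, ?_⟩
      · rw [mem_closedBall_zero_iff] at hh ⊢
        have : ‖(!₂[h 0, -h 1] : E2)‖ ^ 2 = ‖h‖ ^ 2 := by
          rw [nsq2, nsq2]
          simp
        rwa [(sq_eq_sq₀ (norm_nonneg _) (norm_nonneg _)).1 this]
      · rw [hy h]
        ext i
        fin_cases i <;> simp [rhp]
  refine ⟨⟨eD, hsm, hinj.injOn, fun h _ => himm h, rfl, hsph, hball, hbd⟩, ?_, hrhoD, hrhpD, ?_, ?_⟩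
  · -- the rotated disk
    have hder : ∀ h, fderiv ℝ (fun h => Rq (eD h)) h = LR.comp (fderiv ℝ eD h) := by
      intro h
      have hd : HasFDerivAt eD (fderiv ℝ eD h) h :=
        (hsm.differentiable (by norm_num) h).hasFDerivAt
      exact (LR.hasFDerivAt.comp h hd).fderiv
    refine ⟨fun h => Rq (eD h), LR.contDiff.comp hsm, (Rq_inj.comp hinj).injOn, ?_, ?_, ?_, ?_, ?_⟩
    · intro h _
      rw [hder h]
      intro a b hab
      exact himm h (Rq_inj hab)
    · rw [Ds, image_image]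
    · rw [← hRK, ← hsph, image_image]
    · intro h hh
      rw [norm_Rq]
      exact hball h hh
    · intro h hh
      refine ⟨by rw [norm_Rq]; exact (hbd h hh).1, ?_⟩
      rw [hder h]
      have := (hbd h hh).2
      rw [← inner_Rq] at this
      exact this
  · -- invariance of the rotated disk
    have hcomm : ∀ p, rho (Rq p) = Rq (rhp p) := by
      intro p
      ext i
      fin_cases i <;> simp [Rq, rho, rhp]
    rw [image_image]
    simp only [hcomm]
    rw [← image_image Rq rhp, hrhpD]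
  · intro x hx1 hx2
    constructor
    · rintro ⟨h, hh, rfl⟩
      have hc : 4 / 5 ≤ ‖h‖ ^ 2 := by
        by_contra hc
        have := hsmall h (not_le.1 hc)
        linarith
      rw [hflat h hc]
      constructor <;> simp [e0]
    · rintro ⟨h0, h2⟩
      have hn : ‖(!₂[x 1, x 3] : E2)‖ ^ 2 = ‖x‖ ^ 2 := by
        rw [nsq2, nsq4, h0, h2]
        simp
      have hn' := (sq_eq_sq₀ (norm_nonneg _) (norm_nonneg _)).1 hn
      refine ⟨!₂[x 1, x 3], ?_, ?_⟩
      · rw [mem_closedBall_zero_iff, hn']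
        simpa [B4] using hx1
      · rw [hflat _ (by rw [hn]; exact hx2)]
        ext i
        fin_cases i <;> simp [e0, h0, h2]

end EQD
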